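import Mathlib

open Finset

namespace Pool.Agent.X185.OS

/-- summation by parts -/
theorem abel (a h : ℕ → ℝ) (c : ℝ) (hS : ∀ m, ∑ i ∈ range m, a i ≤ c)
    (hanti : ∀ i, h (i + 1) ≤ h i) (hpos : ∀ i, 0 ≤ h i) (m : ℕ) :
    ∑ i ∈ range m, a i * h i ≤ c * h 0 := by
  have key : ∀ m, ∑ i ∈ range m, a i * h i + (c - ∑ i ∈ range m, a i) * h m ≤ c * h 0 := by
    intro m
    induction m with
    | zero => simp
    | succ m ih =>
      have h1 := hS (m + 1)
      rw [Finset.sum_range_succ] at h1 ⊢
      rw [Finset.sum_range_succ]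
      nlinarith [hanti m, mul_le_mul_of_nonneg_left (hanti m)
        (by linarith : 0 ≤ c - (∑ i ∈ range m, a i + a m))]
  have h1 := key m
  have h2 := hS m
  nlinarith [mul_nonneg (by linarith : 0 ≤ c - ∑ i ∈ range m, a i) (hpos m)]

/-- the test loop for the wheel -/
def wchk : ℕ → ℕ → ℕ → Bool
  | 0, _, _ => true
  | f + 1, i, c => cond (Nat.ble (77 * c) (16 * i + 178))
      (wchk f (i + 1) (cond (Nat.beq (Nat.gcd 2310 i) 1) (c + 1) c)) false

theorem wchk_eq : wchk 2310 0 0 = true := by decide +kernel

theorem wchk_spec (f : ℕ) : ∀ i, wchk f i (Nat.count (Nat.Coprime 2310) i) = true →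
    ∀ j, i ≤ j → j < i + f → 77 * Nat.count (Nat.Coprime 2310) j ≤ 16 * j + 178 := by
  induction f with
  | zero => intro i _ j h1 h2; omega
  | succ f ih =>
    intro i h j h1 h2
    have h3 : wchk (f + 1) i (Nat.count (Nat.Coprime 2310) i) =
      cond (Nat.ble (77 * Nat.count (Nat.Coprime 2310) i) (16 * i + 178))
      (wchk f (i + 1) (cond (Nat.beq (Nat.gcd 2310 i) 1)
        (Nat.count (Nat.Coprime 2310) i + 1) (Nat.count (Nat.Coprime 2310) i))) false := rfl
    rw [h3] at h
    cases h4 : Nat.ble (77 * Nat.count (Nat.Coprime 2310) i) (16 * i + 178) with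
    | false => rw [h4, cond_false] at h; exact absurd h (by simp)
    | true =>
      rw [h4, cond_true] at h
      rw [Nat.ble_eq] at h4
      have h5 : cond (Nat.beq (Nat.gcd 2310 i) 1)
        (Nat.count (Nat.Coprime 2310) i + 1) (Nat.count (Nat.Coprime 2310) i) =
          Nat.count (Nat.Coprime 2310) (i + 1) := by
        rw [Nat.count_succ]
        by_cases h6 : Nat.Coprime 2310 i
        · have h7 : Nat.beq (Nat.gcd 2310 i) 1 = true := by rw [Nat.beq_eq]; exact h6
          rw [h7, cond_true, if_pos h6]
        · have h7 : Nat.beq (Nat.gcd 2310 i) 1 = false := by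
            rw [← Bool.not_eq_true, Nat.beq_eq]; exact h6
          rw [h7, cond_false, if_neg h6, add_zero]
      rw [h5] at h
      rcases Nat.lt_or_ge i j with h6 | h6
      · exact ih (i + 1) h j (by omega) (by omega)
      · have : j = i := by omega
        subst this
        exact h4

theorem count_period : Nat.count (Nat.Coprime 2310) 2310 = 480 := by
  rw [Nat.count_eq_card_filter_range]
  have h : Nat.totient 2310 = 480 := by
    decide +kernel
  rw [← h]
  rfl

theorem count_le (m : ℕ) : 77 * Nat.count (Nat.Coprime 2310) m ≤ 16 * m + 178 := by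
  induction m using Nat.strong_induction_on with
  | _ m ih =>
    by_cases h : m < 2310
    · exact wchk_spec 2310 0 (by rw [Nat.count_zero]; exact wchk_eq) m (by omega) (by omega)
    · obtain ⟨k, rfl⟩ : ∃ k, m = 2310 + k := ⟨m - 2310, by omega⟩
      have h1 := ih k (by omega)
      rw [Nat.count_add, count_period]
      have h2 : Nat.count (fun j => Nat.Coprime 2310 (2310 + j)) k =
          Nat.count (Nat.Coprime 2310) k := by
        congr 1
        ext j
        simp
      rw [h2]
      omega

/-- the indicator of the wheel -/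
noncomputable def ind (i : ℕ) : ℝ := if 2 ≤ i ∧ Nat.Coprime 2310 i then 1 else 0

theorem ind_sum (m : ℕ) : ∑ i ∈ range m, (ind i - 16 / 77) ≤ 101 / 77 := by
  have h1 : ∑ i ∈ range m, ind i = (((range m).filter
      (fun i => 2 ≤ i ∧ Nat.Coprime 2310 i)).card : ℝ) := by
    unfold ind
    rw [Finset.sum_boole]
  have h2 : 77 * ((range m).filter (fun i => 2 ≤ i ∧ Nat.Coprime 2310 i)).card ≤ 16 * m + 101 := by
    by_cases hm : m < 2
    · have : (range m).filter (fun i => 2 ≤ i ∧ Nat.Coprime 2310 i) = ∅ := by
        ext i; simp; omega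
      rw [this]; simp
    · have h3 := count_le m
      rw [Nat.count_eq_card_filter_range] at h3
      have h4 : insert 1 ((range m).filter (fun i => 2 ≤ i ∧ Nat.Coprime 2310 i)) ⊆
          (range m).filter (fun i => Nat.Coprime 2310 i) := by
        intro i hi
        rw [Finset.mem_insert, Finset.mem_filter, Finset.mem_range] at hi
        rw [Finset.mem_filter, Finset.mem_range]
        rcases hi with rfl | ⟨h5, _, h6⟩
        · exact ⟨by omega, by simp⟩
        · exact ⟨h5, h6⟩
      have h5 := Finset.card_le_card h4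
      rw [Finset.card_insert_of_notMem (by simp)] at h5
      omega
  have h3 : (77 : ℝ) * (((range m).filter
      (fun i => 2 ≤ i ∧ Nat.Coprime 2310 i)).card : ℝ) ≤ 16 * m + 101 := by exact_mod_cast h2
  rw [Finset.sum_sub_distrib, h1, Finset.sum_const, Finset.card_range, nsmul_eq_mul]
  linarith

end Pool.Agent.X185.OS
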