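import Mathlib
import Pool.Agent.X185.OS.Tools

open Finset

namespace Pool.Agent.X185.OS

/-- the polynomial majorant of `log (1 + t)` -/
noncomputable def PP (t : ℝ) : ℝ := t - t ^ 2 / 2 + t ^ 3 / 3 - t ^ 4 / 4 + t ^ 5 / 5

/-- its logarithmic primitive -/
noncomputable def QQ (t : ℝ) : ℝ := t - t ^ 2 / 4 + t ^ 3 / 9 - t ^ 4 / 16 + t ^ 5 / 25

theorem log_le_PP (t : ℝ) (ht : 0 ≤ t) : Real.log (1 + t) ≤ PP t := by
  have hd : ∀ x : ℝ, 0 ≤ x → HasDerivAt (fun x => PP x - Real.log (1 + x))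
      ((1 - x + x ^ 2 - x ^ 3 + x ^ 4) - 1 / (1 + x)) x := by
    intro x hx
    have h1 : HasDerivAt (fun x : ℝ => Real.log (1 + x)) (1 / (1 + x)) x := by
      have h2 : HasDerivAt (fun x : ℝ => 1 + x) 1 x := (hasDerivAt_id x).const_add 1
      have h3 := h2.log (by positivity)
      exact h3
    have h4 : HasDerivAt PP (1 - x + x ^ 2 - x ^ 3 + x ^ 4) x := by
      have e2 := (hasDerivAt_pow 2 x).div_const 2
      have e3 := (hasDerivAt_pow 3 x).div_const 3
      have e4 := (hasDerivAt_pow 4 x).div_const 4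
      have e5 := (hasDerivAt_pow 5 x).div_const 5
      have e := ((((hasDerivAt_id x).sub e2).add e3).sub e4).add e5
      exact e.congr_deriv (by push_cast; ring)
    exact h4.sub h1
  have hm : MonotoneOn (fun x => PP x - Real.log (1 + x)) (Set.Ici 0) := by
    refine monotoneOn_of_deriv_nonneg (convex_Ici 0) ?_ ?_ ?_
    · intro x hx
      exact (hd x hx).continuousAt.continuousWithinAt
    · intro x hx
      rw [interior_Ici] at hx
      exact (hd x (le_of_lt hx)).differentiableAt.differentiableWithinAt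
    · intro x hx
      rw [interior_Ici] at hx
      have hx' : 0 < x := hx
      rw [(hd x hx'.le).deriv]
      have h1 : (1 - x + x ^ 2 - x ^ 3 + x ^ 4) - 1 / (1 + x) = x ^ 5 / (1 + x) := by
        field_simp; ring
      rw [h1]; positivity
  have h := hm (Set.mem_Ici.2 (le_refl (0 : ℝ))) (Set.mem_Ici.2 ht) ht
  simp only [PP] at h ⊢
  norm_num at h
  linarith

theorem QQ_nonneg (t : ℝ) (h0 : 0 ≤ t) (h1 : t ≤ 1) : 0 ≤ QQ t := by
  unfold QQ
  have h2 : t ^ 2 ≤ t := by nlinarith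
  have h3 : t ^ 4 ≤ t := by
    have : t ^ 4 = t ^ 2 * t ^ 2 := by ring
    nlinarith [sq_nonneg t]
  have h4 : 0 ≤ t ^ 3 := by positivity
  have h5 : 0 ≤ t ^ 5 := by positivity
  linarith

/-- the function `log (1 + exp (- s u))` -/
noncomputable def gg (s u : ℝ) : ℝ := Real.log (1 + Real.exp (-s * u))

theorem gg_nonneg (s u : ℝ) : 0 ≤ gg s u := by
  unfold gg
  exact Real.log_nonneg (by linarith [Real.exp_pos (-s * u)])

theorem gg_anti (s : ℝ) (hs : 0 ≤ s) {u v : ℝ} (h : u ≤ v) : gg s v ≤ gg s u := by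
  unfold gg
  refine Real.log_le_log (by positivity) ?_
  have : Real.exp (-s * v) ≤ Real.exp (-s * u) := by
    refine Real.exp_le_exp.2 ?_
    nlinarith
  linarith

/-- the primitive -/
noncomputable def HH (s u : ℝ) : ℝ := 1 / s * QQ (Real.exp (-s * u))

theorem HH_deriv (s : ℝ) (hs : 0 < s) (u : ℝ) :
    HasDerivAt (HH s) (-PP (Real.exp (-s * u))) u := by
  have h1 : HasDerivAt (fun u : ℝ => Real.exp (-s * u)) (Real.exp (-s * u) * (-s)) u := by
    have h2 : HasDerivAt (fun u : ℝ => -s * u) (-s) u := by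
      simpa using (hasDerivAt_id u).const_mul (-s)
    exact h2.exp
  set t := Real.exp (-s * u) with ht
  have h3 : HasDerivAt QQ (1 - t / 2 + t ^ 2 / 3 - t ^ 3 / 4 + t ^ 4 / 5) t := by
    have e2 := (hasDerivAt_pow 2 t).div_const 4
    have e3 := (hasDerivAt_pow 3 t).div_const 9
    have e4 := (hasDerivAt_pow 4 t).div_const 16
    have e5 := (hasDerivAt_pow 5 t).div_const 25
    have e := ((((hasDerivAt_id t).sub e2).add e3).sub e4).add e5
    exact e.congr_deriv (by push_cast; ring)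
  have h4 := (h3.comp u h1).const_mul (1 / s)
  refine h4.congr_deriv ?_
  show _ = -(t - t ^ 2 / 2 + t ^ 3 / 3 - t ^ 4 / 4 + t ^ 5 / 5)
  field_simp

theorem gg_le (s : ℝ) (hs : 0 < s) (u : ℝ) : gg s (u + 1) ≤ HH s u - HH s (u + 1) := by
  obtain ⟨ξ, ⟨h1, h2⟩, h3⟩ := exists_hasDerivAt_eq_slope (HH s)
    (fun u => -PP (Real.exp (-s * u))) (by linarith : u < u + 1)
    (fun x _ => (HH_deriv s hs x).continuousAt.continuousWithinAt)
    (fun x _ => HH_deriv s hs x)
  have h4 : HH s u - HH s (u + 1) = PP (Real.exp (-s * ξ)) := by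
    have : u + 1 - u = 1 := by ring
    rw [this, div_one] at h3
    linarith
  rw [h4]
  calc gg s (u + 1) ≤ gg s ξ := gg_anti s hs.le h2.le
    _ ≤ _ := log_le_PP _ (Real.exp_pos _).le

theorem gg_sum (s : ℝ) (hs : 0 < s) (n : ℕ) :
    ∑ i ∈ range (n + 1), gg s i ≤ Real.log 2 + 1 / s * (60380 / 72000) := by
  rw [Finset.sum_range_succ']
  have h1 : ∀ n : ℕ, ∑ i ∈ range n, gg s ((i + 1 : ℕ) : ℝ) ≤ HH s 0 - HH s n := by
    intro n
    induction n with
    | zero => simp
    | succ n ih =>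
      rw [Finset.sum_range_succ]
      have := gg_le s hs n
      push_cast at this ih ⊢
      linarith
  have h2 : HH s 0 = 1 / s * (3019 / 3600) := by
    unfold HH QQ
    rw [mul_zero, Real.exp_zero]
    norm_num
  have h3 : 0 ≤ HH s n := by
    unfold HH
    have h4 : Real.exp (-s * n) ≤ 1 := by
      refine Real.exp_le_one_iff.2 ?_
      have : (0 : ℝ) ≤ n := Nat.cast_nonneg n
      nlinarith
    have := QQ_nonneg _ (Real.exp_pos _).le h4
    positivity
  have h5 : gg s ((0 : ℕ) : ℝ) = Real.log 2 := by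
    unfold gg
    simp
    norm_num
  rw [h5]
  have h6 := h1 n
  rw [h2] at h6
  have h7 : (60380 / 72000 : ℝ) = 3019 / 3600 := by norm_num
  rw [h7]
  linarith

/-- the wheel sum of `gg` -/
theorem wheel_sum (s : ℝ) (hs : 0 < s) (n : ℕ) :
    ∑ i ∈ range (n + 1), ind i * gg s i ≤
      16 / 77 * (1 / s * (3019 / 3600)) + (101 / 77 + 16 / 77) * Real.log 2 := by
  have h1 := abel (fun i => ind i - 16 / 77) (fun i => gg s i) (101 / 77) ind_sum
    (fun i => gg_anti s hs.le (by push_cast; linarith)) (fun i => gg_nonneg s i) (n + 1)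
  have h2 := gg_sum s hs n
  have h3 : ∑ i ∈ range (n + 1), (ind i - 16 / 77) * gg s i =
      ∑ i ∈ range (n + 1), ind i * gg s i - 16 / 77 * ∑ i ∈ range (n + 1), gg s i := by
    rw [Finset.mul_sum, ← Finset.sum_sub_distrib]
    refine Finset.sum_congr rfl fun i _ => ?_
    ring
  have h5 : gg s ((0 : ℕ) : ℝ) = Real.log 2 := by
    unfold gg
    simp
    norm_num
  rw [h3, h5] at h1
  have h7 : (60380 / 72000 : ℝ) = 3019 / 3600 := by norm_num
  rw [h7] at h2
  linarith

end Pool.Agent.X185.OS
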