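import Mathlib

open Finset

namespace Pool.Agent.X185.OS

/-- weight of the exponent `e` at `p` -/
def w (p e : ℕ) : ℕ := if e = 0 then 0 else p ^ e

/-- sum of the prime power components -/
def ell (m : ℕ) : ℕ := ∑ p ∈ m.primeFactors, w p (m.factorization p)

/-- admissible exponents at `p` -/
def T (N p : ℕ) : Finset ℕ :=
  if p.Prime then (range (N + 1)).filter (fun e => e = 0 ∨ p ^ e ≤ N) else {0}

/-- the exponent vectors -/
def X (N : ℕ) : Finset (Fin (N + 1) → ℕ) := Fintype.piFinset (fun i => T N i)

/-- the weight of an exponent vector -/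
def wt {N : ℕ} (x : Fin (N + 1) → ℕ) : ℕ := ∑ i : Fin (N + 1), w (i : ℕ) (x i)

/-- number of exponent vectors of weight at most `n` -/
def Cn (N n : ℕ) : ℕ := ((X N).filter (fun x => wt x ≤ n)).card

/-- the factor of `p` -/
def fac {R : Type*} [CommSemiring R] (N : ℕ) (y : R) (p : ℕ) : R := ∑ e ∈ T N p, y ^ w p e

theorem prod_fac {R : Type*} [CommSemiring R] (N : ℕ) (y : R) :
    ∏ i ∈ range (N + 1), fac N y i = ∑ x ∈ X N, y ^ wt x := by
  rw [← Fin.prod_univ_eq_prod_range (fun i => fac N y i) (N + 1)]
  unfold fac X wt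
  rw [Finset.prod_univ_sum]
  refine Finset.sum_congr rfl fun x _ => ?_
  rw [Finset.prod_pow_eq_pow_sum]

lemma w_zero (p : ℕ) : w p 0 = 0 := by simp [w]

lemma sum_le_prod {ι : Type*} (s : Finset ι) (f : ι → ℕ) (hf : ∀ i ∈ s, 2 ≤ f i) :
    ∑ i ∈ s, f i ≤ ∏ i ∈ s, f i := by
  classical
  induction s using Finset.induction_on with
  | empty => simp
  | insert a s ha ih =>
    rw [Finset.sum_insert ha, Finset.prod_insert ha]
    have h1 := ih (fun i hi => hf i (Finset.mem_insert_of_mem hi))
    have h2 := hf a (Finset.mem_insert_self a s)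
    rcases s.eq_empty_or_nonempty with rfl | ⟨b, hb⟩
    · simp
    · have h3 : 2 ≤ ∏ i ∈ s, f i := by
        have h4 : f b ∣ ∏ i ∈ s, f i := Finset.dvd_prod_of_mem f hb
        have h5 : 0 < ∏ i ∈ s, f i :=
          Finset.prod_pos fun i hi => by
            have := hf i (Finset.mem_insert_of_mem hi); omega
        exact le_trans (hf b (Finset.mem_insert_of_mem hb)) (Nat.le_of_dvd h5 h4)
      nlinarith

lemma ell_le (m : ℕ) (hm : m ≠ 0) : ell m ≤ m := by
  have h1 := Nat.prod_factorization_pow_eq_self hm
  unfold Finsupp.prod at h1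
  rw [Nat.support_factorization] at h1
  have h2 : ell m = ∑ p ∈ m.primeFactors, p ^ m.factorization p := by
    refine Finset.sum_congr rfl fun p hp => ?_
    have h3 : m.factorization p ≠ 0 := by
      rw [← Nat.support_factorization, Finsupp.mem_support_iff] at hp
      exact hp
    simp [w, h3]
  have h4 := sum_le_prod m.primeFactors (fun p => p ^ m.factorization p) (by
    intro p hp
    have h3 : m.factorization p ≠ 0 := by
      rw [← Nat.support_factorization, Finsupp.mem_support_iff] at hp
      exact hp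
    have h5 : p.Prime := Nat.prime_of_mem_primeFactors hp
    calc 2 ≤ p := h5.two_le
      _ = p ^ 1 := (pow_one p).symm
      _ ≤ p ^ m.factorization p := Nat.pow_le_pow_right h5.pos (by omega))
  rw [h2]
  calc _ ≤ ∏ p ∈ m.primeFactors, p ^ m.factorization p := h4
    _ = m := h1

lemma ell_eq_sum (m : ℕ) (S : Finset ℕ) (h : m.primeFactors ⊆ S) :
    ell m = ∑ p ∈ S, w p (m.factorization p) := by
  unfold ell
  refine Finset.sum_subset h fun p _ hp => ?_
  have h3 : m.factorization p = 0 := by
    rw [← Nat.support_factorization, Finsupp.mem_support_iff, not_not] at hp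
    exact hp
  rw [h3, w_zero]

lemma w_max (p a b : ℕ) : w p (max a b) ≤ w p a + w p b := by
  rcases le_total a b with h | h
  · rw [max_eq_right h]; omega
  · rw [max_eq_left h]; omega

lemma ell_lcm (a b : ℕ) (ha : a ≠ 0) (hb : b ≠ 0) : ell (Nat.lcm a b) ≤ ell a + ell b := by
  have h1 : (Nat.lcm a b).primeFactors ⊆ a.primeFactors ∪ b.primeFactors := by
    intro p hp
    have hpp := Nat.prime_of_mem_primeFactors hp
    have hpd := Nat.dvd_of_mem_primeFactors hp
    rw [hpp.dvd_lcm] at hpd
    rw [Finset.mem_union, Nat.mem_primeFactors, Nat.mem_primeFactors]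
    tauto
  rw [ell_eq_sum _ _ h1, ell_eq_sum a _ Finset.subset_union_left,
    ell_eq_sum b _ Finset.subset_union_right, ← Finset.sum_add_distrib]
  refine Finset.sum_le_sum fun p _ => ?_
  rw [Nat.factorization_lcm ha hb]
  exact w_max _ _ _

lemma ell_one : ell 1 = 0 := by simp [ell]

lemma ell_multiset (s : Multiset ℕ) (hs : ∀ c ∈ s, c ≠ 0) :
    s.lcm ≠ 0 ∧ ell s.lcm ≤ s.sum := by
  induction s using Multiset.induction_on with
  | empty => simp [ell_one]
  | cons a s ih =>
    obtain ⟨h1, h2⟩ := ih (fun c hc => hs c (Multiset.mem_cons_of_mem hc))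
    have h3 := hs a (Multiset.mem_cons_self a s)
    rw [Multiset.lcm_cons, Multiset.sum_cons]
    have h4 : GCDMonoid.lcm a s.lcm = Nat.lcm a s.lcm := rfl
    rw [h4]
    refine ⟨Nat.lcm_ne_zero h3 h1, ?_⟩
    have h5 := ell_lcm a s.lcm h3 h1
    have h6 := ell_le a h3
    omega

lemma ell_orderOf {n : ℕ} (σ : Equiv.Perm (Fin n)) : ell (orderOf σ) ≤ n := by
  have h1 := ell_multiset σ.cycleType (fun c hc => by
    have := Equiv.Perm.two_le_of_mem_cycleType hc; omega)
  rw [Equiv.Perm.lcm_cycleType, Equiv.Perm.sum_cycleType] at h1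
  have h2 := Finset.card_le_univ σ.support
  rw [Fintype.card_fin] at h2
  omega

lemma mem_T_zero (N p : ℕ) : 0 ∈ T N p := by
  unfold T
  split_ifs <;> simp

theorem card_orders_le (n N : ℕ) (hn : n ≤ N) :
    ((univ : Finset (Equiv.Perm (Fin n))).image orderOf).card ≤ Cn N n := by
  unfold Cn
  have key : ∀ m ∈ (univ : Finset (Equiv.Perm (Fin n))).image orderOf,
      m ≠ 0 ∧ ell m ≤ n := by
    intro m hm
    rw [Finset.mem_image] at hm
    obtain ⟨σ, _, rfl⟩ := hm
    exact ⟨(orderOf_pos σ).ne', ell_orderOf σ⟩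
  have key2 : ∀ m, m ≠ 0 → ell m ≤ n → ∀ p, m.factorization p ≠ 0 →
      p.Prime ∧ p ^ m.factorization p ≤ n := by
    intro m hm hl p hp
    have h1 : p ∈ m.primeFactors := by
      rw [← Nat.support_factorization, Finsupp.mem_support_iff]; exact hp
    refine ⟨Nat.prime_of_mem_primeFactors h1, ?_⟩
    have h2 : w p (m.factorization p) ≤ ell m :=
      Finset.single_le_sum (f := fun p => w p (m.factorization p))
        (fun _ _ => Nat.zero_le _) h1
    unfold w at h2
    rw [if_neg hp] at h2
    omega
  have key3 : ∀ m, m ≠ 0 → ell m ≤ n → m.primeFactors ⊆ range (N + 1) := by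
    intro m hm hl p hp
    have hp' : m.factorization p ≠ 0 := by
      rw [← Nat.support_factorization, Finsupp.mem_support_iff] at hp; exact hp
    obtain ⟨h1, h2⟩ := key2 m hm hl p hp'
    have h3 : p ^ 1 ≤ p ^ m.factorization p := Nat.pow_le_pow_right h1.pos (by omega)
    rw [pow_one] at h3
    rw [Finset.mem_range]; omega
  refine Finset.card_le_card_of_injOn (fun m => fun i : Fin (N + 1) => m.factorization i) ?_ ?_
  · intro m hm
    obtain ⟨h1, h2⟩ := key m hm
    rw [Finset.mem_coe, Finset.mem_filter]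
    constructor
    · unfold X
      rw [Fintype.mem_piFinset]
      intro i
      by_cases h3 : m.factorization i = 0
      · simp only [h3]; exact mem_T_zero _ _
      · obtain ⟨h4, h5⟩ := key2 m h1 h2 i h3
        unfold T
        rw [if_pos h4, Finset.mem_filter, Finset.mem_range]
        have h6 : m.factorization i < (i : ℕ) ^ m.factorization i :=
          Nat.lt_pow_self h4.one_lt
        refine ⟨show m.factorization i < N + 1 by omega,
          Or.inr (show (i : ℕ) ^ m.factorization i ≤ N by omega)⟩
    · unfold wt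
      rw [Fin.sum_univ_eq_sum_range (fun i => w i (m.factorization i)) (N + 1),
        ← ell_eq_sum m _ (key3 m h1 h2)]
      exact h2
  · intro m hm m' hm' he
    obtain ⟨h1, h2⟩ := key m hm
    obtain ⟨h3, h4⟩ := key m' hm'
    refine Nat.eq_of_factorization_eq h1 h3 fun p => ?_
    by_cases hp : p < N + 1
    · exact congrFun he ⟨p, hp⟩
    · have h5 : ∀ k, k ≠ 0 → ell k ≤ n → k.factorization p = 0 := by
        intro k hk hl
        by_contra h
        have h6 : p ∈ k.primeFactors := by
          rw [← Nat.support_factorization, Finsupp.mem_support_iff]; exact h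
        have := key3 k hk hl h6
        rw [Finset.mem_range] at this
        exact hp this
      rw [h5 m h1 h2, h5 m' h3 h4]

end Pool.Agent.X185.OS
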