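import Mathlib
import Pool.Agent.X185.OS.Ell
import Pool.Agent.X185.OS.Calc

open Finset

namespace Pool.Agent.X185.OS

/-- Rankin's bound -/
theorem rankin (n : ℕ) (y : ℝ) (hy : 0 < y) (hy1 : y ≤ 1) :
    (Cn n n : ℝ) * y ^ n ≤ ∏ i ∈ range (n + 1), fac n y i := by
  rw [prod_fac]
  have h1 : (Cn n n : ℝ) * y ^ n ≤ ∑ x ∈ (X n).filter (fun x => wt x ≤ n), y ^ wt x := by
    unfold Cn
    rw [← nsmul_eq_mul]
    refine Finset.card_nsmul_le_sum _ _ _ fun x hx => ?_
    rw [Finset.mem_filter] at hx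
    exact pow_le_pow_of_le_one hy.le hy1 hx.2
  refine h1.trans ?_
  exact Finset.sum_le_sum_of_subset_of_nonneg (Finset.filter_subset _ _)
    (fun x _ _ => by positivity)

lemma fac_nonneg (n : ℕ) (y : ℝ) (hy : 0 ≤ y) (i : ℕ) : 0 ≤ fac n y i := by
  unfold fac
  exact Finset.sum_nonneg fun e _ => by positivity

lemma fac_one (n : ℕ) (y : ℝ) (i : ℕ) (hp : ¬ i.Prime) : fac n y i = 1 := by
  unfold fac T
  rw [if_neg hp, Finset.sum_singleton, w_zero, pow_zero]

lemma fac_log (n : ℕ) (y : ℝ) (hy : 0 ≤ y) (hy1 : y ≤ 1) (p : ℕ) (hp : p.Prime) :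
    fac n y p ≤ 1 + Nat.log p n := by
  unfold fac
  have h1 : T n p ⊆ range (Nat.log p n + 1) := by
    intro e he
    unfold T at he
    rw [if_pos hp, Finset.mem_filter, Finset.mem_range] at he
    rw [Finset.mem_range]
    by_cases h0 : e = 0
    · omega
    · have h2 : p ^ e ≤ n := by tauto
      have h3 := Nat.le_log_of_pow_le hp.one_lt h2
      omega
  calc ∑ e ∈ T n p, y ^ w p e ≤ ∑ e ∈ range (Nat.log p n + 1), y ^ w p e :=
        Finset.sum_le_sum_of_subset_of_nonneg h1 (fun _ _ _ => by positivity)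
    _ ≤ ∑ e ∈ range (Nat.log p n + 1), (1 : ℝ) :=
        Finset.sum_le_sum fun e _ => pow_le_one₀ hy hy1
    _ = 1 + Nat.log p n := by
        rw [Finset.sum_const, Finset.card_range, nsmul_eq_mul]; push_cast; ring

lemma exp_le_inv (u : ℝ) (hu : 0 < u) : Real.exp (-u) ≤ Real.exp (-1) / u := by
  have h1 := Real.add_one_le_exp (u - 1)
  have h2 : Real.exp (u - 1) = Real.exp (-1) * Real.exp u := by
    rw [← Real.exp_add]; congr 1; ring
  rw [le_div_iff₀ hu, Real.exp_neg]
  have h3 : u ≤ Real.exp (-1) * Real.exp u := by rw [← h2]; linarith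
  have h4 := Real.exp_pos u
  calc (Real.exp u)⁻¹ * u ≤ (Real.exp u)⁻¹ * (Real.exp (-1) * Real.exp u) :=
        mul_le_mul_of_nonneg_left h3 (by positivity)
    _ = Real.exp (-1) := by field_simp

/-- the bound for the prime powers -/
noncomputable def rr (s : ℝ) (i : ℕ) : ℝ := Real.exp (-1) / s * (1 / ((i : ℝ) * (i - 1)))

lemma fac_big (n : ℕ) (s : ℝ) (hs : 0 < s) (i : ℕ) (hp : i.Prime) (hi : i ≤ n) :
    fac n (Real.exp (-s)) i ≤ Real.exp (gg s i + rr s i) := by
  have hi2 : 2 ≤ i := hp.two_le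
  have hiR : (2 : ℝ) ≤ i := by exact_mod_cast hi2
  set y := Real.exp (-s) with hy
  have hy0 : 0 < y := Real.exp_pos _
  have h1 : fac n y i ≤ ∑ e ∈ range (n + 1), y ^ w i e := by
    unfold fac
    refine Finset.sum_le_sum_of_subset_of_nonneg ?_ (fun _ _ _ => by positivity)
    unfold T
    rw [if_pos hp]
    exact Finset.filter_subset _ _
  have h2 : ∑ e ∈ range (n + 1), y ^ w i e =
      1 + y ^ i + ∑ e ∈ Ico 2 (n + 1), y ^ (i ^ e) := by
    rw [Finset.range_eq_Ico, Finset.sum_eq_sum_Ico_succ_bot (by omega),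
      Finset.sum_eq_sum_Ico_succ_bot (by omega)]
    have e1 : w i 0 = 0 := w_zero i
    have e2 : w i (0 + 1) = i := by unfold w; simp
    have e3 : ∀ e ∈ Ico (0 + 1 + 1) (n + 1), y ^ w i e = y ^ (i ^ e) := by
      intro e he
      rw [Finset.mem_Ico] at he
      unfold w
      rw [if_neg (by omega)]
    rw [e1, e2, pow_zero, Finset.sum_congr rfl e3, ← add_assoc]
  have h3 : ∑ e ∈ Ico 2 (n + 1), y ^ (i ^ e) ≤ rr s i := by
    have h4 : ∀ e ∈ Ico 2 (n + 1), y ^ (i ^ e) ≤ Real.exp (-1) / s * (1 / (i : ℝ)) ^ e := by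
      intro e _
      have h5 : y ^ (i ^ e) = Real.exp (-(s * (i : ℝ) ^ e)) := by
        rw [hy, ← Real.exp_nat_mul]
        congr 1
        push_cast
        ring
      rw [h5]
      have h6 := exp_le_inv (s * (i : ℝ) ^ e) (by positivity)
      refine h6.trans (le_of_eq ?_)
      rw [one_div, inv_pow]
      field_simp
    have h7 : ∑ e ∈ Ico 2 (n + 1), (1 / (i : ℝ)) ^ e ≤ (1 / (i : ℝ)) ^ 2 / (1 - 1 / (i : ℝ)) := by
      refine geom_sum_Ico_le_of_lt_one (by positivity) ?_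
      rw [div_lt_one (by linarith)]
      linarith
    calc ∑ e ∈ Ico 2 (n + 1), y ^ (i ^ e)
        ≤ ∑ e ∈ Ico 2 (n + 1), Real.exp (-1) / s * (1 / (i : ℝ)) ^ e := Finset.sum_le_sum h4
      _ = Real.exp (-1) / s * ∑ e ∈ Ico 2 (n + 1), (1 / (i : ℝ)) ^ e := by
          rw [Finset.mul_sum]
      _ ≤ Real.exp (-1) / s * ((1 / (i : ℝ)) ^ 2 / (1 - 1 / (i : ℝ))) :=
          mul_le_mul_of_nonneg_left h7 (by positivity)
      _ = rr s i := by
          unfold rr
          have : (i : ℝ) - 1 ≠ 0 := by linarith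
          have : (i : ℝ) ≠ 0 := by linarith
          field_simp
  have h8 : y ^ i = Real.exp (-s * i) := by
    rw [hy, ← Real.exp_nat_mul]; congr 1; ring
  have h9 : Real.exp (gg s i) = 1 + y ^ i := by
    unfold gg
    rw [Real.exp_log (by positivity), h8]
  have hr : 0 ≤ rr s i := by
    unfold rr
    have : 0 ≤ (i : ℝ) - 1 := by linarith
    positivity
  rw [h2] at h1
  rw [Real.exp_add, h9]
  have h10 := Real.add_one_le_exp (rr s i)
  have h11 : 0 < y ^ i := by positivity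
  have h12 : (1 + y ^ i) * (1 + rr s i) ≤ (1 + y ^ i) * Real.exp (rr s i) :=
    mul_le_mul_of_nonneg_left (by linarith) (by positivity)
  nlinarith [mul_nonneg h11.le hr]

/-- sums over odd numbers -/
lemma odd_partial (m : ℕ) :
    ∑ j ∈ range m, ((if Odd (12 + j) then (1 : ℝ) else 0) - 1 / 2) ≤ 0 := by
  have key : ∀ k : ℕ, ∑ j ∈ range (2 * k),
      ((if Odd (12 + j) then (1 : ℝ) else 0) - 1 / 2) = 0 := by
    intro k
    induction k with
    | zero => simp
    | succ k ih =>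
      have : 2 * (k + 1) = 2 * k + 1 + 1 := by ring
      rw [this, Finset.sum_range_succ, Finset.sum_range_succ, ih]
      have h1 : ¬ Odd (12 + 2 * k) := by
        rw [Nat.not_odd_iff_even]; exact ⟨6 + k, by ring⟩
      have h2 : Odd (12 + (2 * k + 1)) := ⟨6 + k, by ring⟩
      rw [if_neg h1, if_pos h2]
      norm_num
  rcases Nat.even_or_odd' m with ⟨k, rfl | rfl⟩
  · rw [key]
  · rw [Finset.sum_range_succ, key]
    have h1 : ¬ Odd (12 + 2 * k) := by
      rw [Nat.not_odd_iff_even]; exact ⟨6 + k, by ring⟩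
    rw [if_neg h1]
    norm_num

lemma odd_sum (s : ℝ) (hs : 0 < s) (m : ℕ) :
    ∑ i ∈ Ico 12 (12 + m), (if Odd i then rr s i else 0) ≤ Real.exp (-1) / s / 22 := by
  have hC : 0 < Real.exp (-1) / s := by positivity
  set C := Real.exp (-1) / s with hCd
  have hrr : ∀ i : ℕ, rr s i = C * (1 / ((i : ℝ) * (i - 1))) := fun i => rfl
  rw [Finset.sum_Ico_eq_sum_range, Nat.add_sub_cancel_left]
  have hanti : ∀ i : ℕ, rr s (12 + (i + 1)) ≤ rr s (12 + i) := by
    intro i
    rw [hrr, hrr]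
    refine mul_le_mul_of_nonneg_left ?_ hC.le
    refine one_div_le_one_div_of_le ?_ ?_
    · push_cast
      have : (0 : ℝ) ≤ i := Nat.cast_nonneg i
      nlinarith
    · push_cast
      have : (0 : ℝ) ≤ i := Nat.cast_nonneg i
      nlinarith
  have hpos : ∀ i : ℕ, 0 ≤ rr s (12 + i) := by
    intro i
    rw [hrr]
    have : (0 : ℝ) ≤ i := Nat.cast_nonneg i
    have h2 : (0 : ℝ) ≤ ((12 + i : ℕ) : ℝ) - 1 := by push_cast; linarith
    positivity
  have h1 := abel (fun j => (if Odd (12 + j) then (1 : ℝ) else 0) - 1 / 2)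
    (fun j => rr s (12 + j)) 0 odd_partial hanti hpos m
  rw [zero_mul] at h1
  have h2 : ∑ j ∈ range m, ((if Odd (12 + j) then (1 : ℝ) else 0) - 1 / 2) * rr s (12 + j) =
      ∑ j ∈ range m, (if Odd (12 + j) then rr s (12 + j) else 0) -
        1 / 2 * ∑ j ∈ range m, rr s (12 + j) := by
    rw [Finset.mul_sum, ← Finset.sum_sub_distrib]
    refine Finset.sum_congr rfl fun j _ => ?_
    split_ifs <;> ring
  rw [h2] at h1
  have h3 : ∀ m : ℕ, ∑ j ∈ range m, rr s (12 + j) = C * (1 / 11 - 1 / (11 + m)) := by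
    intro m
    induction m with
    | zero => simp
    | succ m ih =>
      rw [Finset.sum_range_succ, ih, hrr]
      have : (0 : ℝ) ≤ m := Nat.cast_nonneg m
      have e1 : ((11 : ℝ) + m) ≠ 0 := by linarith
      have e2 : ((12 : ℝ) + m) ≠ 0 := by linarith
      push_cast
      have e3 : (12 + (m : ℝ) - 1) = 11 + m := by ring
      have e4 : (11 + ((m : ℝ) + 1)) = 12 + m := by ring
      rw [e3, e4]
      field_simp
      ring
  have h4 := h3 m
  have h5 : 0 ≤ C * (1 / (11 + (m : ℝ))) := by positivity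
  rw [h4] at h1
  nlinarith

end Pool.Agent.X185.OS
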