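import Mathlib
import Pool.Agent.X185.OS.Rankin

open Finset

namespace Pool.Agent.X185.OS

lemma log_bound (p u v n : ℕ) (hp : 1 < p) (hn : n ≠ 0) (h : 2 ^ u ≤ p ^ v) :
    (u : ℝ) * Real.log 2 * Nat.log p n ≤ v * Real.log n := by
  have hp0 : (0 : ℝ) < p := by exact_mod_cast (by omega : 0 < p)
  have h1 : p ^ Nat.log p n ≤ n := Nat.pow_log_le_self p hn
  have h2 : ((p : ℝ)) ^ Nat.log p n ≤ n := by exact_mod_cast h1
  have h3 : (Nat.log p n : ℝ) * Real.log p ≤ Real.log n := by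
    rw [← Real.log_pow]
    exact Real.log_le_log (by positivity) h2
  have h4 : (2 : ℝ) ^ u ≤ (p : ℝ) ^ v := by exact_mod_cast h
  have h5 : (u : ℝ) * Real.log 2 ≤ v * Real.log p := by
    rw [← Real.log_pow, ← Real.log_pow]
    exact Real.log_le_log (by positivity) h4
  calc (u : ℝ) * Real.log 2 * Nat.log p n ≤ v * Real.log p * Nat.log p n :=
        mul_le_mul_of_nonneg_right h5 (Nat.cast_nonneg _)
    _ = v * (Nat.log p n * Real.log p) := by ring
    _ ≤ v * Real.log n := mul_le_mul_of_nonneg_left h3 (Nat.cast_nonneg _)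

lemma lin_exp (a z : ℝ) (hz : 0 < z) : 1 + a ≤ z * Real.exp ((1 + a) / z - 1) := by
  have h := Real.add_one_le_exp ((1 + a) / z - 1)
  have h2 : (1 + a) / z ≤ Real.exp ((1 + a) / z - 1) := by linarith
  rw [div_le_iff₀ hz] at h2
  linarith

lemma exp_const : (25978 : ℝ) ≤ Real.exp (10.17) := by
  have h1 : Real.exp (10.17) = Real.exp 1 ^ 10 * Real.exp 0.17 := by
    rw [← Real.exp_nat_mul, ← Real.exp_add]; norm_num
  have h2 : (2.7182818283 : ℝ) ^ 10 ≤ Real.exp 1 ^ 10 :=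
    pow_le_pow_left₀ (by norm_num) Real.exp_one_gt_d9.le 10
  have h3 : (1 : ℝ) + 0.17 + 0.17 ^ 2 / 2 ≤ Real.exp 0.17 :=
    Real.quadratic_le_exp_of_nonneg (by norm_num)
  rw [h1]
  calc (25978 : ℝ) ≤ 2.7182818283 ^ 10 * (1 + 0.17 + 0.17 ^ 2 / 2) := by norm_num
    _ ≤ _ := mul_le_mul h2 h3 (by norm_num) (by positivity)

lemma prod_small (n : ℕ) (y : ℝ) : ∏ i ∈ range 12, fac n y i =
    fac n y 2 * fac n y 3 * fac n y 5 * fac n y 7 * fac n y 11 := by
  have h0 := fac_one n y 0 (by norm_num)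
  have h1 := fac_one n y 1 (by norm_num)
  have h4 := fac_one n y 4 (by norm_num)
  have h6 := fac_one n y 6 (by norm_num)
  have h8 := fac_one n y 8 (by norm_num)
  have h9 := fac_one n y 9 (by norm_num)
  have h10 := fac_one n y 10 (by norm_num)
  simp only [Finset.prod_range_succ, Finset.prod_range_zero, h0, h1, h4, h6, h8, h9, h10,
    one_mul, mul_one]

lemma prod_big (n : ℕ) (s : ℝ) (hs : 0 < s) (hn : 12 ≤ n) :
    ∏ i ∈ Ico 12 (n + 1), fac n (Real.exp (-s)) i ≤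
      Real.exp (16 / 77 * (1 / s * (3019 / 3600)) + (101 / 77 + 16 / 77) * Real.log 2 +
        Real.exp (-1) / s / 22) := by
  have hy : 0 ≤ Real.exp (-s) := (Real.exp_pos _).le
  have hrr : ∀ i ∈ Ico 12 (n + 1), 0 ≤ rr s i := by
    intro i hi
    rw [Finset.mem_Ico] at hi
    have h1 : (12 : ℝ) ≤ i := by exact_mod_cast hi.1
    unfold rr
    have h2 : 0 ≤ (i : ℝ) - 1 := by linarith
    positivity
  have hind : ∀ i, 0 ≤ ind i := by
    intro i; unfold ind; split_ifs <;> norm_num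
  have h1 : ∏ i ∈ Ico 12 (n + 1), fac n (Real.exp (-s)) i ≤
      ∏ i ∈ Ico 12 (n + 1), Real.exp (ind i * gg s i + (if Odd i then rr s i else 0)) := by
    refine Finset.prod_le_prod (fun i _ => fac_nonneg n _ hy i) fun i hi => ?_
    have hi' := hi
    rw [Finset.mem_Ico] at hi
    by_cases hp : i.Prime
    · have h2 := fac_big n s hs i hp (by omega)
      have h3 : ind i = 1 := by
        unfold ind
        rw [if_pos]
        refine ⟨by omega, ?_⟩
        have h4 : (2310 : ℕ) = 2 * 3 * 5 * 7 * 11 := by norm_num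
        rw [h4]
        have hc : ∀ q, q.Prime → q < 12 → Nat.Coprime q i := by
          intro q hq hq2
          exact (Nat.coprime_primes hq hp).2 (by omega)
        refine Nat.Coprime.mul_left (Nat.Coprime.mul_left (Nat.Coprime.mul_left
          (Nat.Coprime.mul_left ?_ ?_) ?_) ?_) ?_
        · exact hc 2 (by norm_num) (by norm_num)
        · exact hc 3 (by norm_num) (by norm_num)
        · exact hc 5 (by norm_num) (by norm_num)
        · exact hc 7 (by norm_num) (by norm_num)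
        · exact hc 11 (by norm_num) (by norm_num)
      have h5 : Odd i := hp.odd_of_ne_two (by omega)
      rw [h3, if_pos h5, one_mul]
      exact h2
    · rw [fac_one n _ i hp]
      refine Real.one_le_exp ?_
      have h2 := mul_nonneg (hind i) (gg_nonneg s i)
      have h3 : 0 ≤ if Odd i then rr s i else 0 := by
        split_ifs
        · exact hrr i hi'
        · exact le_refl _
      linarith
  refine h1.trans ?_
  rw [← Real.exp_sum]
  refine Real.exp_le_exp.2 ?_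
  rw [Finset.sum_add_distrib]
  have h2 : ∑ i ∈ Ico 12 (n + 1), ind i * gg s i ≤ ∑ i ∈ range (n + 1), ind i * gg s i := by
    refine Finset.sum_le_sum_of_subset_of_nonneg ?_
      (fun i _ _ => mul_nonneg (hind i) (gg_nonneg s i))
    intro i hi
    rw [Finset.mem_Ico] at hi
    rw [Finset.mem_range]; exact hi.2
  have h3 := wheel_sum s hs n
  obtain ⟨m, hm⟩ : ∃ m, n + 1 = 12 + m := ⟨n + 1 - 12, by omega⟩
  have h4 := odd_sum s hs m
  rw [hm] at h2 h3 ⊢
  linarith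

lemma conv (a L u v c l : ℝ) (ha : 0 ≤ a) (hL : 0 ≤ L) (hu : 0 < u) (hl : 0.69314718 ≤ l)
    (h : u * l * a ≤ v * L) (hc : v ≤ c * u * 0.69314718) : a ≤ c * L := by
  have h1 : u * 0.69314718 * a ≤ u * l * a := by
    have := mul_le_mul_of_nonneg_right (mul_le_mul_of_nonneg_left hl hu.le) ha
    exact this
  have h2 : v * L ≤ c * u * 0.69314718 * L := mul_le_mul_of_nonneg_right hc hL
  have h3 : u * 0.69314718 * a ≤ u * 0.69314718 * (c * L) := by linarith
  exact le_of_mul_le_mul_left h3 (by positivity)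

lemma log_n_bound (x : ℝ) (hx0 : 0 < x) : Real.log (x * x) ≤ 7.25 + x / 50 := by
  have e1 : Real.log (x * x) = 2 * Real.log x := by
    rw [Real.log_mul hx0.ne' hx0.ne']; ring
  have e2 : Real.log x ≤ Real.log 100 + (x / 100 - 1) := by
    have := Real.log_le_sub_one_of_pos (by positivity : 0 < x / 100)
    rw [Real.log_div hx0.ne' (by norm_num)] at this
    linarith
  have e3 : Real.log 100 ≤ 4.6211 := by
    have e4 : (3 : ℝ) * Real.log 100 ≤ 20 * Real.log 2 := by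
      have e5 : Real.log ((100 : ℝ) ^ 3) ≤ Real.log ((2 : ℝ) ^ 20) :=
        Real.log_le_log (by norm_num) (by norm_num)
      rw [Real.log_pow, Real.log_pow] at e5
      push_cast at e5
      linarith
    have := Real.log_two_lt_d9
    linarith
  linarith

lemma final_num (x L a2 a3 a5 a7 a11 l E : ℝ) (hx : 100 ≤ x) (hL : L ≤ 7.25 + x / 50)
    (c2 : a2 ≤ 1.4428 * L) (c3 : a3 ≤ 0.9113 * L) (c5 : a5 ≤ 0.6313 * L)
    (c7 : a7 ≤ 0.5153 * L) (c11 : a11 ≤ 0.4244 * L) (hl : l ≤ 0.6931471808)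
    (hE : E ≤ 0.3678794412 * (1000 / 437 * x) / 22) :
    10.17 + (((1 + a2) / 14.3 - 1) +
      ((1 + a3) / 9.4 - 1) + ((1 + a5) / 6.8 - 1) + ((1 + a7) / 5.8 - 1) +
      ((1 + a11) / 4.9 - 1)) + (16 / 77 * (1000 / 437 * x * (3019 / 3600)) +
      (101 / 77 + 16 / 77) * l + E) + 437 / 1000 * x ≤ x := by
  have d2 : (1 + a2) / 14.3 - 1 ≤ 0.0033 + 1.4428 / 14.3 * (x / 50 - 2) := by
    rw [sub_le_iff_le_add, div_le_iff₀ (by norm_num)]; linarith
  have d3 : (1 + a3) / 9.4 - 1 ≤ 0.0032 + 0.9113 / 9.4 * (x / 50 - 2) := by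
    rw [sub_le_iff_le_add, div_le_iff₀ (by norm_num)]; linarith
  have d5 : (1 + a5) / 6.8 - 1 ≤ 0.006 + 0.6313 / 6.8 * (x / 50 - 2) := by
    rw [sub_le_iff_le_add, div_le_iff₀ (by norm_num)]; linarith
  have d7 : (1 + a7) / 5.8 - 1 ≤ 0 + 0.5153 / 5.8 * (x / 50 - 2) := by
    rw [sub_le_iff_le_add, div_le_iff₀ (by norm_num)]; linarith
  have d11 : (1 + a11) / 4.9 - 1 ≤ 0.006 + 0.4244 / 4.9 * (x / 50 - 2) := by
    rw [sub_le_iff_le_add, div_le_iff₀ (by norm_num)]; linarith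
  generalize (1 + a2) / 14.3 - 1 = A2 at *
  generalize (1 + a3) / 9.4 - 1 = A3 at *
  generalize (1 + a5) / 6.8 - 1 = A5 at *
  generalize (1 + a7) / 5.8 - 1 = A7 at *
  generalize (1 + a11) / 4.9 - 1 = A11 at *
  clear c2 c3 c5 c7 c11 hL
  have m1 : 16 / 77 * (1000 / 437 * x * (3019 / 3600)) ≤ 0.39877 * x := by linarith
  have m2 : E ≤ 0.03827 * x := by linarith
  have m3 : (101 / 77 + 16 / 77) * l ≤ 1.0533 := by linarith
  linarith

theorem big (n : ℕ) (hn : 10000 ≤ n) : (Cn n n : ℝ) ≤ Real.exp (Real.sqrt n) := by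
  have hnR : (10000 : ℝ) ≤ n := by exact_mod_cast hn
  set x := Real.sqrt n with hx
  have hx100 : 100 ≤ x := by
    rw [hx]
    refine Real.le_sqrt_of_sq_le ?_
    linarith
  have hxx : x * x = n := Real.mul_self_sqrt (Nat.cast_nonneg n)
  have hx0 : 0 < x := by linarith
  set s := (437 / 1000) / x with hs
  have hs0 : 0 < s := by positivity
  have hsn : s * n = 437 / 1000 * x := by
    rw [hs, ← hxx]; field_simp
  have hsi : 1 / s = 1000 / 437 * x := by
    rw [hs]; field_simp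
  have h1 := rankin n (Real.exp (-s)) (Real.exp_pos _) (Real.exp_le_one_iff.2 (by linarith))
  rw [← Finset.prod_range_mul_prod_Ico _ (by omega : 12 ≤ n + 1), prod_small] at h1
  have hy0 : 0 ≤ Real.exp (-s) := (Real.exp_pos _).le
  have hy1 : Real.exp (-s) ≤ 1 := Real.exp_le_one_iff.2 (by linarith)
  have f2 := fac_log n _ hy0 hy1 2 (by norm_num)
  have f3 := fac_log n _ hy0 hy1 3 (by norm_num)
  have f5 := fac_log n _ hy0 hy1 5 (by norm_num)
  have f7 := fac_log n _ hy0 hy1 7 (by norm_num)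
  have f11 := fac_log n _ hy0 hy1 11 (by norm_num)
  have g2 := f2.trans (lin_exp (Nat.log 2 n) 14.3 (by norm_num))
  have g3 := f3.trans (lin_exp (Nat.log 3 n) 9.4 (by norm_num))
  have g5 := f5.trans (lin_exp (Nat.log 5 n) 6.8 (by norm_num))
  have g7 := f7.trans (lin_exp (Nat.log 7 n) 5.8 (by norm_num))
  have g11 := f11.trans (lin_exp (Nat.log 11 n) 4.9 (by norm_num))
  have nn := fac_nonneg n _ hy0
  have hn0 : n ≠ 0 := by omega
  have b2 := log_bound 2 1 1 n (by norm_num) hn0 (by norm_num)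
  have b3 := log_bound 3 19 12 n (by norm_num) hn0 (by norm_num)
  have b5 := log_bound 5 16 7 n (by norm_num) hn0 (by norm_num)
  have b7 := log_bound 7 14 5 n (by norm_num) hn0 (by norm_num)
  have b11 := log_bound 11 17 5 n (by norm_num) hn0 (by norm_num)
  set a2 := (Nat.log 2 n : ℝ) with ha2
  set a3 := (Nat.log 3 n : ℝ) with ha3
  set a5 := (Nat.log 5 n : ℝ) with ha5
  set a7 := (Nat.log 7 n : ℝ) with ha7
  set a11 := (Nat.log 11 n : ℝ) with ha11
  have p2 : (0 : ℝ) ≤ a2 := Nat.cast_nonneg _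
  have p3 : (0 : ℝ) ≤ a3 := Nat.cast_nonneg _
  have p5 : (0 : ℝ) ≤ a5 := Nat.cast_nonneg _
  have p7 : (0 : ℝ) ≤ a7 := Nat.cast_nonneg _
  have p11 : (0 : ℝ) ≤ a11 := Nat.cast_nonneg _
  have hlog : Real.log n ≤ 7.25 + x / 50 := by
    rw [← hxx]; exact log_n_bound x hx0
  have hL0 : 0 ≤ Real.log n := Real.log_nonneg (by linarith)
  have l2 : (0.69314718 : ℝ) ≤ Real.log 2 := by have := Real.log_two_gt_d9; linarith
  have l2' := Real.log_two_lt_d9
  have c2 := conv a2 (Real.log n) (1 : ℕ) (1 : ℕ) 1.4428 _ p2 hL0 (by norm_num) l2 b2 (by norm_num)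
  have c3 := conv a3 (Real.log n) (19 : ℕ) (12 : ℕ) 0.9113 _ p3 hL0 (by norm_num) l2 b3 (by norm_num)
  have c5 := conv a5 (Real.log n) (16 : ℕ) (7 : ℕ) 0.6313 _ p5 hL0 (by norm_num) l2 b5 (by norm_num)
  have c7 := conv a7 (Real.log n) (14 : ℕ) (5 : ℕ) 0.5153 _ p7 hL0 (by norm_num) l2 b7 (by norm_num)
  have c11 := conv a11 (Real.log n) (17 : ℕ) (5 : ℕ) 0.4244 _ p11 hL0 (by norm_num) l2 b11
    (by norm_num)
  -- assemble
  have hbig := prod_big n s hs0 (by omega)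
  have hA : fac n (Real.exp (-s)) 2 * fac n (Real.exp (-s)) 3 * fac n (Real.exp (-s)) 5 *
      fac n (Real.exp (-s)) 7 * fac n (Real.exp (-s)) 11 ≤
      (14.3 * Real.exp ((1 + a2) / 14.3 - 1)) * (9.4 * Real.exp ((1 + a3) / 9.4 - 1)) *
      (6.8 * Real.exp ((1 + a5) / 6.8 - 1)) * (5.8 * Real.exp ((1 + a7) / 5.8 - 1)) *
      (4.9 * Real.exp ((1 + a11) / 4.9 - 1)) := by
    have q2 := nn 2
    have q3 := nn 3
    have q5 := nn 5
    have q7 := nn 7
    have q11 := nn 11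
    refine mul_le_mul (mul_le_mul (mul_le_mul (mul_le_mul g2 g3 q3 (q2.trans g2)) g5 q5 ?_)
      g7 q7 ?_) g11 q11 ?_
    · positivity
    · positivity
    · positivity
  have hB : (14.3 * Real.exp ((1 + a2) / 14.3 - 1)) * (9.4 * Real.exp ((1 + a3) / 9.4 - 1)) *
      (6.8 * Real.exp ((1 + a5) / 6.8 - 1)) * (5.8 * Real.exp ((1 + a7) / 5.8 - 1)) *
      (4.9 * Real.exp ((1 + a11) / 4.9 - 1)) ≤ Real.exp (10.17 + (((1 + a2) / 14.3 - 1) +
      ((1 + a3) / 9.4 - 1) + ((1 + a5) / 6.8 - 1) + ((1 + a7) / 5.8 - 1) +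
      ((1 + a11) / 4.9 - 1))) := by
    rw [Real.exp_add, Real.exp_add, Real.exp_add, Real.exp_add, Real.exp_add]
    have e1 := exp_const
    have e2 : 0 < Real.exp ((1 + a2) / 14.3 - 1) * Real.exp ((1 + a3) / 9.4 - 1) *
      Real.exp ((1 + a5) / 6.8 - 1) * Real.exp ((1 + a7) / 5.8 - 1) *
      Real.exp ((1 + a11) / 4.9 - 1) := by positivity
    calc _ = (14.3 * 9.4 * 6.8 * 5.8 * 4.9) * (Real.exp ((1 + a2) / 14.3 - 1) *
      Real.exp ((1 + a3) / 9.4 - 1) *
      Real.exp ((1 + a5) / 6.8 - 1) * Real.exp ((1 + a7) / 5.8 - 1) *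
      Real.exp ((1 + a11) / 4.9 - 1)) := by ring
      _ ≤ _ := mul_le_mul_of_nonneg_right (le_trans (by norm_num) e1) e2.le
  have hC : (Cn n n : ℝ) * Real.exp (-s) ^ n ≤ Real.exp (10.17 + (((1 + a2) / 14.3 - 1) +
      ((1 + a3) / 9.4 - 1) + ((1 + a5) / 6.8 - 1) + ((1 + a7) / 5.8 - 1) +
      ((1 + a11) / 4.9 - 1))) * Real.exp (16 / 77 * (1 / s * (3019 / 3600)) +
      (101 / 77 + 16 / 77) * Real.log 2 + Real.exp (-1) / s / 22) := by
    refine h1.trans (mul_le_mul (hA.trans hB) hbig ?_ (Real.exp_pos _).le)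
    exact Finset.prod_nonneg fun i _ => nn i
  rw [← Real.exp_add, ← Real.exp_nat_mul] at hC
  have hD : (Cn n n : ℝ) ≤ Real.exp (10.17 + (((1 + a2) / 14.3 - 1) +
      ((1 + a3) / 9.4 - 1) + ((1 + a5) / 6.8 - 1) + ((1 + a7) / 5.8 - 1) +
      ((1 + a11) / 4.9 - 1)) + (16 / 77 * (1 / s * (3019 / 3600)) +
      (101 / 77 + 16 / 77) * Real.log 2 + Real.exp (-1) / s / 22) + 437 / 1000 * x) := by
    have e1 : (n : ℝ) * -s = -(437 / 1000 * x) := by rw [← hsn]; ring
    rw [e1, Real.exp_neg, ← div_eq_mul_inv, div_le_iff₀ (Real.exp_pos _), ← Real.exp_add] at hC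
    exact hC
  refine hD.trans (Real.exp_le_exp.2 ?_)
  have e1 : Real.exp (-1) / s / 22 ≤ 0.3678794412 * (1000 / 437 * x) / 22 := by
    have e2 : Real.exp (-1) / s = Real.exp (-1) * (1 / s) := by ring
    rw [e2, hsi]
    have e3 := Real.exp_neg_one_lt_d9
    have e4 : 0 < 1000 / 437 * x := by positivity
    nlinarith
  rw [hsi]
  exact final_num x (Real.log n) a2 a3 a5 a7 a11 _ _ hx100 hlog c2 c3 c5 c7 c11 l2'.le e1

end Pool.Agent.X185.OS
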