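import Mathlib

namespace Pool.Agent.X185.OS

/-- number of bits of a digit of the packed polynomial -/
def KB : ℕ := 146
/-- the range of the computation -/
def NN : ℕ := 10000
/-- product of the primes below 100 -/
def M100 : ℕ := 2305567963945518424753102147331756070
/-- bit mask of the primes below 100 -/
def mask100 : ℕ := 159085582874019712269820766380
/-- primality test for numbers up to `10000` -/
def isP (i : ℕ) : Bool :=
  cond (Nat.ble i 99) (Nat.testBit mask100 i) (Nat.beq (Nat.gcd i M100) 1)
/-- the full mask -/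
def FULL : ℕ := 2 ^ (KB * (NN + 1)) - 1

/-- the sum of `2 ^ (KB * q * p ^ j)` over `j < f` with `q * p ^ j ≤ NN` -/
def pw (p : ℕ) : ℕ → ℕ → ℕ
  | 0, _ => 0
  | f + 1, q => cond (Nat.ble q NN) (2 ^ (KB * q) + pw p f (q * p)) 0

/-- multiply the packed polynomial by the factor of `i` -/
def step (acc i : ℕ) : ℕ :=
  cond (isP i)
    (cond (Nat.ble i 100) ((acc * (1 + pw i 14 i)) &&& FULL)
      ((acc + (acc <<< (KB * i))) &&& FULL)) acc

/-- a block of `f` steps -/
def blk : ℕ → ℕ → ℕ → ℕ
  | 0, _, acc => acc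
  | f + 1, lo, acc => blk f (lo + 1) (step acc lo)

/-- evaluate the argument first -/
def force (n : ℕ) (f : ℕ → ℕ) : ℕ := Nat.rec (f 0) (fun m _ => f (m + 1)) n

/-- blocks of 100 steps -/
def outer : ℕ → ℕ → ℕ → ℕ
  | 0, _, acc => acc
  | f + 1, lo, acc => force (blk 100 lo acc) (fun a => outer f (lo + 100) a)

/-- extraction of the number of orders at `n` from the packed polynomial -/
def cnt (V n : ℕ) : ℕ := (V &&& (2 ^ (KB * (n + 1)) - 1)) % (2 ^ KB - 1)

/-- the comparison with `exp (a / 10)` for `a` in a range -/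
def chk (V : ℕ) : ℕ → ℕ → Bool
  | 0, _ => true
  | f + 1, a =>
    cond (Nat.ble ((cnt V (((a + 1) * (a + 1) - 1) / 100)) ^ 10 * 10000000000 ^ a)
      (27182818283 ^ a)) (chk V f (a + 1)) false

/-- the whole computation -/
def total : ℕ := force (outer 100 1 1) (fun V => cond (chk V 1000 0) 1 0)

theorem total_eq : total = 1 := by decide +kernel

end Pool.Agent.X185.OS
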