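import Mathlib
import Pool.Agent.X185.OS.Comp
import Pool.Agent.X185.OS.Ell

open Finset

namespace Pool.Agent.X185.OS

theorem isP_small : ∀ i < 100, isP i = decide (Nat.Prime i) := by decide +kernel

theorem M100_eq : M100 = ∏ p ∈ (range 100).filter Nat.Prime, p := by decide +kernel

theorem isP_iff (i : ℕ) (hi : i ≤ NN) : isP i = true ↔ i.Prime := by
  by_cases h : i < 100
  · rw [isP_small i h, decide_eq_true_eq]
  · have h1 : Nat.ble i 99 = false := by
      rw [← Bool.not_eq_true, Nat.ble_eq]; omega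
    unfold isP
    rw [h1, cond_false, Nat.beq_eq]
    constructor
    · intro hg
      by_contra hnp
      have h2 := Nat.minFac_sq_le_self (by omega : 0 < i) hnp
      have h3 : i.minFac.Prime := Nat.minFac_prime (by omega)
      have h4 : i.minFac ≤ 100 := by
        have : i ≤ 10000 := hi
        nlinarith
      have h5 : i.minFac ≠ 100 := by
        intro h6; rw [h6] at h3; revert h3; norm_num
      have h6 : i.minFac ∣ M100 := by
        rw [M100_eq]
        exact Finset.dvd_prod_of_mem (fun p => p)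
          (Finset.mem_filter.2 ⟨Finset.mem_range.2 (by omega), h3⟩)
      have h7 : i.minFac ∣ Nat.gcd i M100 := Nat.dvd_gcd (Nat.minFac_dvd i) h6
      rw [hg] at h7
      exact h3.one_lt.ne' (Nat.dvd_one.1 h7)
    · intro hp
      show Nat.Coprime i M100
      rw [M100_eq]
      refine Nat.Coprime.prod_right fun p hp' => ?_
      rw [Finset.mem_filter, Finset.mem_range] at hp'
      exact (Nat.coprime_primes hp hp'.2).2 (by omega)

/-- the base -/
def BB : ℕ := 2 ^ KB

lemma BB_pow (e : ℕ) : BB ^ e = 2 ^ (KB * e) := by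
  unfold BB; rw [← pow_mul]

lemma pw_spec (p : ℕ) (hp : 2 ≤ p) (f : ℕ) : ∀ a, pw p f (p ^ a) =
    ∑ e ∈ Ico a (a + f), if p ^ e ≤ NN then BB ^ (p ^ e) else 0 := by
  induction f with
  | zero => intro a; simp [pw]
  | succ f ih =>
    intro a
    rw [Finset.sum_eq_sum_Ico_succ_bot (by omega : a < a + (f + 1))]
    have h1 : a + (f + 1) = (a + 1) + f := by ring
    rw [h1, ← ih (a + 1)]
    have hpw : pw p (f + 1) (p ^ a) =
        cond (Nat.ble (p ^ a) NN) (2 ^ (KB * p ^ a) + pw p f (p ^ a * p)) 0 := rfl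
    rw [hpw]
    by_cases h : p ^ a ≤ NN
    · have h2 : Nat.ble (p ^ a) NN = true := by rw [Nat.ble_eq]; exact h
      rw [h2, cond_true, if_pos h, BB_pow, ← pow_succ]
    · have h2 : Nat.ble (p ^ a) NN = false := by
        rw [← Bool.not_eq_true, Nat.ble_eq]; exact h
      rw [h2, cond_false, if_neg h]
      have h3 : pw p f (p ^ (a + 1)) = 0 := by
        rw [ih (a + 1)]
        refine Finset.sum_eq_zero fun e he => ?_
        rw [Finset.mem_Ico] at he
        rw [if_neg]
        have h4 : p ^ a ≤ p ^ e := Nat.pow_le_pow_right (by omega) (by omega)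
        omega
      rw [h3]

lemma T_prime (i : ℕ) (hp : i.Prime) :
    T NN i = insert 0 ((Ico 1 15).filter (fun e => i ^ e ≤ NN)) := by
  unfold T
  rw [if_pos hp]
  ext e
  simp only [Finset.mem_filter, Finset.mem_range, Finset.mem_insert, Finset.mem_Ico]
  constructor
  · rintro ⟨h1, h2⟩
    by_cases h0 : e = 0
    · exact Or.inl h0
    · right
      have h3 : i ^ e ≤ NN := by tauto
      refine ⟨⟨by omega, ?_⟩, h3⟩
      by_contra h4
      have h5 : 2 ^ 15 ≤ i ^ e := calc
        2 ^ 15 ≤ i ^ 15 := Nat.pow_le_pow_left hp.two_le 15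
        _ ≤ i ^ e := Nat.pow_le_pow_right hp.pos (by omega)
      have h6 : i ^ e ≤ 10000 := h3
      norm_num at h5
      omega
  · rintro (rfl | ⟨⟨h1, h2⟩, h3⟩)
    · simp
    · refine ⟨?_, Or.inr h3⟩
      show e < 10000 + 1
      omega

lemma fac_prime (i : ℕ) (hp : i.Prime) : fac NN BB i = 1 + pw i 14 i := by
  have h1 := pw_spec i hp.two_le 14 1
  rw [pow_one] at h1
  rw [h1]
  unfold fac
  rw [T_prime i hp, Finset.sum_insert (by simp), w_zero, pow_zero, Finset.sum_filter]
  have h4 : ∀ e ∈ Ico 1 15, (if i ^ e ≤ NN then BB ^ w i e else 0) =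
      if i ^ e ≤ NN then BB ^ (i ^ e) else 0 := by
    intro e he
    rw [Finset.mem_Ico] at he
    have h2 : w i e = i ^ e := by unfold w; rw [if_neg (by omega)]
    rw [h2]
  rw [Finset.sum_congr rfl h4]

lemma fac_not_prime (i : ℕ) (hp : ¬ i.Prime) : fac NN BB i = 1 := by
  unfold fac T
  rw [if_neg hp, Finset.sum_singleton, w_zero, pow_zero]

lemma pw_big (i : ℕ) (hi : 100 < i) (hi2 : i ≤ NN) : pw i 14 i = 2 ^ (KB * i) := by
  have h2 : Nat.ble i NN = true := by rw [Nat.ble_eq]; exact hi2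
  have h3 : Nat.ble (i * i) NN = false := by
    rw [← Bool.not_eq_true, Nat.ble_eq]
    show ¬ (i * i ≤ 10000)
    nlinarith
  show cond (Nat.ble i NN) (2 ^ (KB * i) + cond (Nat.ble (i * i) NN) _ 0) 0 = _
  rw [h2, h3, cond_true, cond_false, add_zero]

/-- the modulus -/
def MM : ℕ := BB ^ (NN + 1)

lemma and_FULL (x : ℕ) : x &&& FULL ≡ x [MOD MM] := by
  unfold FULL MM
  rw [BB_pow, Nat.and_two_pow_sub_one_eq_mod]
  exact Nat.mod_modEq _ _

lemma step_spec (acc i : ℕ) (hi : i ≤ NN) : step acc i ≡ acc * fac NN BB i [MOD MM] := by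
  unfold step
  by_cases hp : i.Prime
  · have h1 : isP i = true := (isP_iff i hi).2 hp
    rw [h1, cond_true, fac_prime i hp]
    by_cases h2 : i ≤ 100
    · have h3 : Nat.ble i 100 = true := by rw [Nat.ble_eq]; exact h2
      rw [h3, cond_true]
      exact and_FULL _
    · have h3 : Nat.ble i 100 = false := by rw [← Bool.not_eq_true, Nat.ble_eq]; exact h2
      rw [h3, cond_false, pw_big i (by omega) hi]
      have h4 : acc + (acc <<< (KB * i)) = acc * (1 + 2 ^ (KB * i)) := by
        rw [Nat.shiftLeft_eq]; ring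
      rw [h4]
      exact and_FULL _
  · have h1 : isP i = false := by
      rw [← Bool.not_eq_true]; intro h; exact hp ((isP_iff i hi).1 h)
    rw [h1, cond_false, fac_not_prime i hp, mul_one]

lemma blk_spec (f : ℕ) : ∀ lo acc, lo + f ≤ NN + 1 →
    blk f lo acc ≡ acc * ∏ i ∈ Ico lo (lo + f), fac NN BB i [MOD MM] := by
  induction f with
  | zero => intro lo acc _; simp [blk]; rfl
  | succ f ih =>
    intro lo acc h
    have h1 := ih (lo + 1) (step acc lo) (by omega)
    have h2 := step_spec acc lo (by omega)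
    have h3 : lo + 1 + f = lo + (f + 1) := by ring
    rw [h3] at h1
    rw [Finset.prod_eq_prod_Ico_succ_bot (by omega : lo < lo + (f + 1)), ← mul_assoc]
    exact h1.trans (h2.mul_right _)

lemma force_eq (n : ℕ) (f : ℕ → ℕ) : force n f = f n := by
  unfold force
  cases n <;> rfl

lemma outer_spec (f : ℕ) : ∀ lo acc, lo + 100 * f ≤ NN + 1 →
    outer f lo acc ≡ acc * ∏ i ∈ Ico lo (lo + 100 * f), fac NN BB i [MOD MM] := by
  induction f with
  | zero => intro lo acc _; simp [outer]; rfl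
  | succ f ih =>
    intro lo acc h
    have h1 := ih (lo + 100) (blk 100 lo acc) (by omega)
    have h2 := blk_spec 100 lo acc (by omega)
    have h3 : lo + 100 + 100 * f = lo + 100 * (f + 1) := by ring
    rw [h3] at h1
    have h4 : outer (f + 1) lo acc = outer f (lo + 100) (blk 100 lo acc) := by
      show force (blk 100 lo acc) (fun a => outer f (lo + 100) a) = _
      rw [force_eq]
    rw [h4, ← Finset.prod_Ico_consecutive _ (by omega : lo ≤ lo + 100)
      (by omega : lo + 100 ≤ lo + 100 * (f + 1)), ← mul_assoc]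
    exact h1.trans (h2.mul_right _)

/-- the packed polynomial -/
def VV : ℕ := outer 100 1 1

lemma modEq_aux (V P S M : ℕ) (h1 : V ≡ 1 * P [MOD M]) (h2 : P = S) : V ≡ S [MOD M] := by
  rw [one_mul, h2] at h1; exact h1

lemma prod_split {R : Type*} [CommSemiring R] (f : ℕ → R) (n : ℕ) (h0 : f 0 = 1) :
    ∏ i ∈ Ico 1 (n + 1), f i = ∏ i ∈ range (n + 1), f i := by
  rw [Finset.range_eq_Ico, Finset.prod_eq_prod_Ico_succ_bot (Nat.succ_pos n), h0, one_mul]

lemma VV_spec : VV ≡ ∑ x ∈ X NN, BB ^ wt x [MOD MM] :=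
  modEq_aux VV _ _ MM (outer_spec 100 1 1 (le_refl _))
    ((prod_split (fun i => fac NN BB i) NN (fac_not_prime 0 Nat.not_prime_zero)).trans
      (prod_fac NN BB))

lemma real_part (c a n : ℕ) (h1 : a * a ≤ 100 * n)
    (h6 : c ^ 10 * 10000000000 ^ a ≤ 27182818283 ^ a) :
    (c : ℝ) ≤ Real.exp (Real.sqrt n) := by
  have h9 : ((c : ℝ)) ^ 10 * 10000000000 ^ a ≤ 27182818283 ^ a := by exact_mod_cast h6
  have h10 : (c : ℝ) ^ 10 ≤ (2.7182818283 : ℝ) ^ a := by
    have h11 : (2.7182818283 : ℝ) ^ a * 10000000000 ^ a = 27182818283 ^ a := by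
      rw [← mul_pow]; norm_num
    rw [← h11] at h9
    exact le_of_mul_le_mul_right h9 (by positivity)
  have h12 : (2.7182818283 : ℝ) ^ a ≤ Real.exp 1 ^ a :=
    pow_le_pow_left₀ (by norm_num) Real.exp_one_gt_d9.le a
  have h13 : Real.exp 1 ^ a ≤ (Real.exp (Real.sqrt n)) ^ 10 := by
    rw [← Real.exp_nat_mul, ← Real.exp_nat_mul]
    refine Real.exp_le_exp.2 ?_
    have h14 : (a : ℝ) ≤ 10 * Real.sqrt n := by
      have h15 : (a : ℝ) ^ 2 ≤ (10 * Real.sqrt n) ^ 2 := by
        rw [mul_pow, Real.sq_sqrt (Nat.cast_nonneg n)]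
        have : (a : ℝ) * a ≤ 100 * n := by exact_mod_cast h1
        nlinarith
      have h16 : (0 : ℝ) ≤ 10 * Real.sqrt n := by positivity
      exact le_of_sq_le_sq h15 h16
    push_cast
    linarith
  exact le_of_pow_le_pow_left₀ (by norm_num) (Real.exp_pos _).le (h10.trans (h12.trans h13))

lemma Cn_mono (N : ℕ) {a b : ℕ} (h : a ≤ b) : Cn N a ≤ Cn N b := by
  unfold Cn
  refine Finset.card_le_card fun x hx => ?_
  rw [Finset.mem_filter] at hx ⊢
  exact ⟨hx.1, hx.2.trans h⟩

lemma modEq_pred (B : ℕ) (hB : 1 ≤ B) : B ≡ 1 [MOD B - 1] := by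
  have h12 : B = 1 + (B - 1) := by omega
  have : 1 + (B - 1) ≡ 1 [MOD B - 1] := by
    unfold Nat.ModEq
    rw [Nat.add_mod_right]
  rw [← h12] at this
  exact this

lemma sum_modEq {ι : Type*} (s : Finset ι) (f : ι → ℕ) (B : ℕ) (hB : 1 ≤ B) :
    ∑ x ∈ s, B ^ f x ≡ s.card [MOD B - 1] := by
  classical
  induction s using Finset.induction_on with
  | empty => simp; rfl
  | insert a s ha ih =>
    rw [Finset.sum_insert ha, Finset.card_insert_of_notMem ha, add_comm s.card 1]
    refine Nat.ModEq.add ?_ ih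
    have := (modEq_pred B hB).pow (f a)
    rwa [one_pow] at this

lemma extract {ι : Type*} (S : Finset ι) (f : ι → ℕ) (B V N n : ℕ) (hB : 1 ≤ B) (hn : n ≤ N)
    (hV : V ≡ ∑ x ∈ S, B ^ f x [MOD B ^ (N + 1)])
    (hc : (S.filter (fun x => f x ≤ n)).card < B - 1) :
    (V % B ^ (n + 1)) % (B - 1) = (S.filter (fun x => f x ≤ n)).card := by
  classical
  have h1 : V ≡ ∑ x ∈ S, B ^ f x [MOD B ^ (n + 1)] := by
    refine Nat.ModEq.of_dvd ?_ hV
    exact pow_dvd_pow _ (by omega)
  have h2 : ∑ x ∈ S, B ^ f x ≡ ∑ x ∈ S.filter (fun x => f x ≤ n), B ^ f x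
      [MOD B ^ (n + 1)] := by
    rw [← Finset.sum_filter_add_sum_filter_not S (fun x => f x ≤ n)]
    have h3 : ∑ x ∈ S.filter (fun x => ¬ f x ≤ n), B ^ f x ≡ 0 [MOD B ^ (n + 1)] := by
      rw [Nat.modEq_zero_iff_dvd]
      refine Finset.dvd_sum fun x hx => ?_
      rw [Finset.mem_filter] at hx
      exact pow_dvd_pow _ (by omega)
    have h4 := Nat.ModEq.add_left (∑ x ∈ S.filter (fun x => f x ≤ n), B ^ f x) h3
    rw [add_zero] at h4
    exact h4
  set Tn := ∑ x ∈ S.filter (fun x => f x ≤ n), B ^ f x with hTn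
  have h5 : Tn < B ^ (n + 1) := by
    have h6 : Tn ≤ (S.filter (fun x => f x ≤ n)).card * B ^ n := by
      rw [hTn, ← smul_eq_mul]
      refine Finset.sum_le_card_nsmul _ _ _ fun x hx => ?_
      rw [Finset.mem_filter] at hx
      exact Nat.pow_le_pow_right hB hx.2
    have h7 : (S.filter (fun x => f x ≤ n)).card * B ^ n < B * B ^ n := by
      have : 0 < B ^ n := Nat.pow_pos hB
      exact Nat.mul_lt_mul_of_pos_right (by omega) this
    rw [pow_succ, mul_comm (B ^ n)]
    omega
  have h8 : V % B ^ (n + 1) = Tn := by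
    have h9 := h1.trans h2
    unfold Nat.ModEq at h9
    rw [h9, Nat.mod_eq_of_lt h5]
  have h10 : Tn ≡ (S.filter (fun x => f x ≤ n)).card [MOD B - 1] := sum_modEq _ _ _ hB
  rw [h8]
  unfold Nat.ModEq at h10
  rw [h10, Nat.mod_eq_of_lt hc]

lemma cnt_eq (n : ℕ) (hn : n ≤ NN) (hc : Cn NN n < BB - 1) : cnt VV n = Cn NN n := by
  have h := extract (X NN) (fun x => wt x) BB VV NN n Nat.one_le_two_pow hn VV_spec hc
  unfold cnt
  rw [Nat.and_two_pow_sub_one_eq_mod, ← BB_pow]
  exact h

lemma chk_spec (V f : ℕ) : ∀ a, chk V f a = true → ∀ b, a ≤ b → b < a + f →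
    (cnt V (((b + 1) * (b + 1) - 1) / 100)) ^ 10 * 10000000000 ^ b ≤ 27182818283 ^ b := by
  induction f with
  | zero => intro a _ b h1 h2; omega
  | succ f ih =>
    intro a h b h1 h2
    have h3 : chk V (f + 1) a = cond (Nat.ble ((cnt V (((a + 1) * (a + 1) - 1) / 100)) ^ 10 *
        10000000000 ^ a) (27182818283 ^ a)) (chk V f (a + 1)) false := rfl
    rw [h3] at h
    cases h4 : Nat.ble ((cnt V (((a + 1) * (a + 1) - 1) / 100)) ^ 10 *
        10000000000 ^ a) (27182818283 ^ a) with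
    | false => rw [h4, cond_false] at h; exact absurd h (by simp)
    | true =>
      rw [h4, cond_true] at h
      rw [Nat.ble_eq] at h4
      rcases Nat.lt_or_ge a b with h5 | h5
      · exact ih (a + 1) h b (by omega) (by omega)
      · have : b = a := by omega
        subst this
        exact h4

lemma VV_chk : chk VV 1000 0 = true := by
  have h := total_eq
  unfold total at h
  rw [force_eq] at h
  cases h1 : chk VV 1000 0 with
  | true => rfl
  | false =>
    have h2 : chk (outer 100 1 1) 1000 0 = false := h1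
    rw [h2, cond_false] at h
    exact absurd h (by norm_num)

theorem small (hbig : Cn NN NN < BB - 1) (n : ℕ) (hn : n < NN) :
    (Cn NN n : ℝ) ≤ Real.exp (Real.sqrt n) := by
  have hn' : n < 10000 := hn
  set a := Nat.sqrt (100 * n) with ha
  have h1 : a * a ≤ 100 * n := Nat.sqrt_le _
  have h2 : 100 * n < (a + 1) * (a + 1) := Nat.lt_succ_sqrt _
  have h3 : a < 1000 := by nlinarith
  set hi := ((a + 1) * (a + 1) - 1) / 100 with hhi
  have h4 : n ≤ hi := by
    rw [hhi, Nat.le_div_iff_mul_le (by norm_num)]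
    omega
  have h5 : hi ≤ NN := by
    show hi ≤ 10000
    rw [hhi]
    have : (a + 1) * (a + 1) ≤ 1000 * 1000 := Nat.mul_le_mul (by omega) (by omega)
    omega
  have h6 := chk_spec VV 1000 0 VV_chk a (by omega) (by omega)
  rw [← hhi] at h6
  have h7 : Cn NN hi < BB - 1 := lt_of_le_of_lt (Cn_mono NN h5) hbig
  rw [cnt_eq hi h5 h7] at h6
  have h8 : Cn NN n ≤ Cn NN hi := Cn_mono NN h4
  have h18 : (Cn NN n : ℝ) ≤ Cn NN hi := Nat.cast_le.2 h8
  exact h18.trans (real_part _ a n h1 h6)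

end Pool.Agent.X185.OS
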