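import Mathlib
import Pool.Agent.X185.OS.Pack
import Pool.Agent.X185.OS.Big

namespace Pool.Agent.X185.OS

lemma exp_hundred : Real.exp 100 < 2 ^ 145 := by
  have h1 : Real.exp 100 = Real.exp 1 ^ 100 := by
    rw [← Real.exp_nat_mul]; norm_num
  rw [h1]
  calc Real.exp 1 ^ 100 < 2.7182818286 ^ 100 :=
        pow_lt_pow_left₀ Real.exp_one_lt_d9 (Real.exp_pos 1).le (by norm_num)
    _ < 2 ^ 145 := by norm_num

lemma hbig : Cn NN NN < BB - 1 := by
  have h1 := big NN (le_refl _)
  have h2 : Real.sqrt (NN : ℕ) = 100 := by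
    have h3 : ((NN : ℕ) : ℝ) = 100 ^ 2 := by
      have : (NN : ℕ) = 10000 := rfl
      rw [this]; norm_num
    rw [h3, Real.sqrt_sq (by norm_num)]
  rw [h2] at h1
  have h4 : (Cn NN NN : ℝ) < ((2 ^ 145 : ℕ) : ℝ) := by
    rw [Nat.cast_pow, Nat.cast_ofNat]
    exact lt_of_le_of_lt h1 exp_hundred
  have h5 : Cn NN NN < 2 ^ 145 := Nat.cast_lt.1 h4
  have h6 : (2 : ℕ) ^ 145 < BB - 1 := by
    have : BB = 2 ^ 146 := rfl
    rw [this]; norm_num
  exact h5.trans h6

theorem card_le (n : ℕ) :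
    (((Finset.univ : Finset (Equiv.Perm (Fin n))).image orderOf).card : ℝ) ≤
      Real.exp (Real.sqrt n) := by
  rcases Nat.lt_or_ge n NN with h | h
  · have h1 : (((Finset.univ : Finset (Equiv.Perm (Fin n))).image orderOf).card : ℝ) ≤
        Cn NN n := Nat.cast_le.2 (card_orders_le n NN h.le)
    exact h1.trans (small hbig n h)
  · have h1 : (((Finset.univ : Finset (Equiv.Perm (Fin n))).image orderOf).card : ℝ) ≤
        Cn n n := Nat.cast_le.2 (card_orders_le n n (le_refl n))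
    exact h1.trans (big n h)

end Pool.Agent.X185.OS
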